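import Pool.Agent.Helper70.RC.Goals

/-!
# Project TW, part RC, packet SIGN (MP_c7dfba_nt)

Signs of finitely many polynomials at an element of a real closed extension are realised in the
base field.
-/

set_option autoImplicit false

namespace Pool.Agent.Helper75.RC

open Polynomial Pool.Agent.Helper70.RC

universe u v

section

variable {R : Type v} {M : Type u} [Field R] [IsRealClosed R] [Field M] [IsRealClosed M]
  [Algebra R M] [LinearOrder R] [IsStrictOrderedRing R] [LinearOrder M] [IsStrictOrderedRing M]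

theorem map_pos {x : R} (hx : 0 < x) : 0 < algebraMap R M x := by
  obtain ⟨c, hc⟩ := IsRealClosed.nonneg_iff_isSquare.1 hx.le
  have h0 : algebraMap R M x ≠ 0 := by
    rw [Ne, FaithfulSMul.algebraMap_eq_zero_iff]
    exact hx.ne'
  have h1 : 0 ≤ algebraMap R M x := by
    rw [hc, map_mul]
    exact mul_self_nonneg _
  exact lt_of_le_of_ne h1 (Ne.symm h0)

theorem map_lt {x y : R} (h : x < y) : algebraMap R M x < algebraMap R M y := by
  have := map_pos (M := M) (sub_pos.2 h)
  rw [map_sub] at this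
  exact sub_pos.1 this

/-- the values of `h` at `a` and at `t` have the same nonzero sign -/
def Sg (a : R) (t : M) (h : R[X]) : Prop :=
  (0 < h.eval a ∧ 0 < aeval t h) ∨ (h.eval a < 0 ∧ aeval t h < 0)

theorem sg_mul {a : R} {t : M} {g h : R[X]} (hg : Sg a t g) (hh : Sg a t h) : Sg a t (g * h) := by
  unfold Sg at *
  rw [eval_mul, map_mul]
  rcases hg with ⟨h1, h2⟩ | ⟨h1, h2⟩ <;> rcases hh with ⟨h3, h4⟩ | ⟨h3, h4⟩
  · exact Or.inl ⟨mul_pos h1 h3, mul_pos h2 h4⟩
  · exact Or.inr ⟨mul_neg_of_pos_of_neg h1 h3, mul_neg_of_pos_of_neg h2 h4⟩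
  · exact Or.inr ⟨mul_neg_of_neg_of_pos h1 h3, mul_neg_of_neg_of_pos h2 h4⟩
  · exact Or.inl ⟨mul_pos_of_neg_of_neg h1 h3, mul_pos_of_neg_of_neg h2 h4⟩

theorem sg_C {a : R} {t : M} {c : R} (hc : c ≠ 0) : Sg a t (C c) := by
  unfold Sg
  rw [eval_C, aeval_C]
  rcases lt_or_gt_of_ne hc with h | h
  · refine Or.inr ⟨h, ?_⟩
    have := map_lt (M := M) h
    rwa [map_zero] at this
  · exact Or.inl ⟨h, map_pos h⟩

/-- the sign of a linear factor -/
theorem sg_lin {a : R} {t : M} {l m : R} (hl : l ≠ 0)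
    (hc : (-m / l < a ∧ algebraMap R M (-m / l) < t) ∨ (a < -m / l ∧ t < algebraMap R M (-m / l))) :
    Sg a t (C l * X + C m) := by
  have e : (C l * X + C m : R[X]) = C l * (X - C (-m / l)) := by
    rw [mul_sub, ← C_mul, mul_div_cancel₀ _ hl, C_neg]
    ring
  rw [e]
  refine sg_mul (sg_C hl) ?_
  unfold Sg
  rw [eval_sub, eval_X, eval_C, map_sub, aeval_X, aeval_C]
  rcases hc with ⟨h1, h2⟩ | ⟨h1, h2⟩
  · exact Or.inl ⟨sub_pos.2 h1, sub_pos.2 h2⟩
  · exact Or.inr ⟨sub_neg.2 h1, sub_neg.2 h2⟩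

/-- the sign of a quadratic factor -/
theorem sg_quad {a : R} {t : M} {l b g : R} (hl : l ≠ 0)
    (hroot : ∀ x : R, l * x ^ 2 + b * x + g ≠ 0) :
    Sg a t (C l * X ^ 2 + C b * X + C g) := by
  have hD : b ^ 2 - 4 * l * g < 0 := by
    by_contra hD
    push Not at hD
    obtain ⟨s, hs⟩ := IsRealClosed.nonneg_iff_isSquare.1 hD
    apply hroot ((-b + s) / (2 * l))
    field_simp
    linear_combination -hs
  have hD' : 0 < 4 * l * g - b ^ 2 := by linarith
  have hDM : 0 < 4 * algebraMap R M l * algebraMap R M g - algebraMap R M b ^ 2 := by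
    have h := map_pos (M := M) hD'
    rw [map_sub, map_mul, map_mul, map_pow, map_ofNat] at h
    exact h
  have h1 : 0 < (C l * X ^ 2 + C b * X + C g : R[X]).eval a * l := by
    simp only [eval_add, eval_mul, eval_C, eval_pow, eval_X]
    nlinarith [sq_nonneg (2 * l * a + b)]
  have h2 : 0 < aeval t (C l * X ^ 2 + C b * X + C g : R[X]) * algebraMap R M l := by
    simp only [map_add, map_mul, aeval_C, map_pow, aeval_X]
    nlinarith [sq_nonneg (2 * algebraMap R M l * t + algebraMap R M b)]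
  rcases lt_or_gt_of_ne hl with h | h
  · have h3 := map_lt (M := M) h
    rw [map_zero] at h3
    refine Or.inr ⟨?_, ?_⟩
    · exact neg_of_mul_pos_left h1 h.le
    · exact neg_of_mul_pos_left h2 h3.le
  · have h3 := map_pos (M := M) h
    refine Or.inl ⟨?_, ?_⟩
    · exact pos_of_mul_pos_left h1 h.le
    · exact pos_of_mul_pos_left h2 h3.le

/-- the claim: all polynomials with roots in `T` -/
theorem sg_all {a : R} {t : M} (T : Set R)
    (hT : ∀ c ∈ T, (c < a ∧ algebraMap R M c < t) ∨ (a < c ∧ t < algebraMap R M c)) (h : R[X]) :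
    h ≠ 0 → (∀ x, h.eval x = 0 → x ∈ T) → Sg a t h := by
  induction h using WfDvdMonoid.induction_on_irreducible with
  | zero => exact fun h0 => absurd rfl h0
  | unit u hu =>
    intro _ _
    obtain ⟨r, hr, rfl⟩ := Polynomial.isUnit_iff.1 hu
    exact sg_C hr.ne_zero
  | mul g q hg hq ih =>
    intro h0 hr
    have hg2 : Sg a t g := ih hg fun x hx => hr x (by rw [eval_mul, hx, mul_zero])
    refine sg_mul ?_ hg2
    have hq2 : ∀ x, q.eval x = 0 → x ∈ T := fun x hx => hr x (by rw [eval_mul, hx, zero_mul])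
    have hdeg := Pool.Agent.Helper51.Lang.FTA.irr2 R q hq
    have hpos : 0 < q.natDegree := hq.natDegree_pos
    rcases (by omega : q.natDegree = 1 ∨ q.natDegree = 2) with h1 | h1
    · obtain ⟨l, m, hl, rfl⟩ : ∃ l m : R, l ≠ 0 ∧ C l * X + C m = q := by
        refine ⟨q.coeff 1, q.coeff 0, ?_, (Polynomial.eq_X_add_C_of_natDegree_le_one h1.le).symm⟩
        rw [← h1]
        exact Polynomial.leadingCoeff_ne_zero.2 hq.ne_zero
      apply sg_lin hl
      apply hT
      apply hq2
      simp only [eval_add, eval_mul, eval_C, eval_X]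
      field_simp
      ring
    · obtain ⟨l, b, g', hl, rfl⟩ : ∃ l b g' : R, l ≠ 0 ∧ C l * X ^ 2 + C b * X + C g' = q := by
        refine ⟨q.coeff 2, q.coeff 1, q.coeff 0, ?_, ?_⟩
        · rw [← h1]
          exact Polynomial.leadingCoeff_ne_zero.2 hq.ne_zero
        · conv_rhs => rw [Polynomial.as_sum_range_C_mul_X_pow q, h1]
          simp only [Finset.sum_range_succ, Finset.sum_range_zero, pow_zero, pow_one, mul_one,
            zero_add]
          ring
      apply sg_quad hl
      intro x hx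
      -- a root gives a linear factor
      have hd : (X - C x) ∣ (C l * X ^ 2 + C b * X + C g' : R[X]) := by
        rw [Polynomial.dvd_iff_isRoot]
        simp only [IsRoot.def, eval_add, eval_mul, eval_C, eval_pow, eval_X]
        exact hx
      obtain ⟨w, hw⟩ := hd
      rcases hq.isUnit_or_isUnit hw with h3 | h3
      · exact Polynomial.not_isUnit_X_sub_C x h3
      · have h4 : (C l * X ^ 2 + C b * X + C g' : R[X]).natDegree = 1 := by
          have h5 := Polynomial.natDegree_eq_zero_of_isUnit h3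
          have h6 : w ≠ 0 := h3.ne_zero
          rw [hw, Polynomial.natDegree_mul (Polynomial.X_sub_C_ne_zero x) h6, h5,
            Polynomial.natDegree_X_sub_C]
        omega

end

theorem sign : SIGN.{u, v} := by
  intro R M _ _ _ _ _ t ht S hS
  classical
  obtain ⟨_, _⟩ := exists_order R
  obtain ⟨_, _⟩ := exists_order M
  let T : Finset R := S.biUnion fun h => h.roots.toFinset
  obtain ⟨a, ha1, ha2⟩ := Order.exists_between_finsets (T.filter fun c => algebraMap R M c < t)
    (T.filter fun c => t < algebraMap R M c) (by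
      intro x hx y hy
      have h1 := (Finset.mem_filter.1 hx).2
      have h2 := (Finset.mem_filter.1 hy).2
      by_contra h3
      push Not at h3
      rcases h3.lt_or_eq with h4 | h4
      · exact absurd (map_lt (M := M) h4) (not_lt.2 (h1.trans h2).le)
      · rw [h4] at h2
        exact absurd h1 (not_lt.2 h2.le))
  have hT : ∀ c ∈ (T : Set R), (c < a ∧ algebraMap R M c < t) ∨
      (a < c ∧ t < algebraMap R M c) := by
    intro c hc
    rcases lt_or_gt_of_ne (ht c) with h1 | h1
    · exact Or.inl ⟨ha1 c (Finset.mem_filter.2 ⟨hc, h1⟩), h1⟩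
    · exact Or.inr ⟨ha2 c (Finset.mem_filter.2 ⟨hc, h1⟩), h1⟩
  refine ⟨a, fun h hh => ?_⟩
  have h1 : Sg a t h := by
    refine sg_all (T : Set R) hT h (hS h hh) fun x hx => ?_
    refine Finset.mem_coe.2 (Finset.mem_biUnion.2 ⟨h, hh, ?_⟩)
    rw [Multiset.mem_toFinset, Polynomial.mem_roots (hS h hh)]
    exact hx
  rw [← IsRealClosed.nonneg_iff_isSquare, ← IsRealClosed.nonneg_iff_isSquare]
  rcases h1 with ⟨h1, h2⟩ | ⟨h1, h2⟩
  · exact ⟨h1.ne', iff_of_true h1.le h2.le⟩
  · exact ⟨h1.ne, iff_of_false (not_le.2 h1) (not_le.2 h2)⟩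

end Pool.Agent.Helper75.RC
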